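import Mathlib
import Pool.Agent.Lib.MP_0af324_gt.Main

namespace Pool.Agent.Results.MP_0af324_gt.AmenableCollapse

open Pool.Agent.Lib.MP_0af324_gt

theorem result (n : ℕ) (Γ E M Ω : Type) [Group Γ] [Countable Γ] [TopologicalSpace E]
    [TopologicalSpace M] [MulAction Γ E] [ContinuousConstSMul Γ E] [ContractibleSpace E]
    (p : C(E, M)) (hp : IsQuotientCoveringMap p Γ)
    [MulAction Γ Ω] (hΩ : IsAmenableAction Γ Ω)
    (hA : ∀ ω : Ω, ∃ A : Subgroup Γ, IsAmenableAction A A ∧ ∀ l : Fin (n + 3) → Γ,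
      (∀ i, l i • ω = ω) → {h : Γ | ∀ i, (l i)⁻¹ * h * l i ∈ A}.Infinite)
    (z : Simplex (n + 1) M →₀ ℤ) (hz : bd z = 0) :
    foliatedNorm Γ p z = l1Seminorm z :=
  main hp (fun T m η hη => by
    have := coll hΩ hA T m (η := η / 3) (by positivity)
    rwa [mul_div_cancel₀ η three_ne_zero] at this) hz

end Pool.Agent.Results.MP_0af324_gt.AmenableCollapse
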