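import Mathlib
import Pool.Agent.Lib.MP_0af324_gt.RMain
import Pool.Agent.Lib.MP_0af324_gt.RDav

namespace Pool.Agent.Results.MP_0af324_gt.DavisFour

open Pool.Agent.Lib.MP_0af324_gt

theorem result (V W Γ E M : Type) [Fintype V] (G : SimpleGraph V)
    (hS : IsOrientablePseudomanifold G 3) (hN : ∀ s, StronglyConnectedAt G 3 s)
    (h2 : ∀ c : (Fin 3 → V) → ℤ, IsFlagChain G c → chainBd c = 0 →
      ∃ b : (Fin 4 → V) → ℤ, IsFlagChain G b ∧ chainBd b = c)
    [Group W] (cs : CoxeterSystem (racgMatrix G) W)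
    [Group Γ] (ι : Γ →* W) (hι : Function.Injective ι) (hΓ : ∀ g : Γ, IsOfFinOrder g → g = 1)
    [TopologicalSpace E] [TopologicalSpace M] [MulAction Γ E] [ContinuousConstSMul Γ E]
    [ContractibleSpace E] (p : C(E, M)) (hp : IsQuotientCoveringMap p Γ)
    (z : Simplex 4 M →₀ ℤ) (hz : bd z = 0) (h0 : l1Seminorm z = 0) :
    foliatedNorm Γ p z = 0 :=
  four cs dav_blk hS hN h2 hι hΓ hp hz h0

end Pool.Agent.Results.MP_0af324_gt.DavisFour
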